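import Mathlib
import Pool.Agent.Y822.G.Stm
import Pool.Agent.Helper256.KM.Mertens
import Pool.Agent.H373R2.T7.Cnt

/-! GL-BRUN: Brun's pure sieve, uniform in the dimension. -/

set_option autoImplicit false

namespace Pool.Agent.Y388.GL

open Finset Pool.Agent.Y822.G Pool.Agent.H373R2.T7

lemma rho_le (Q : ℕ → ℕ → Prop) (p : ℕ) : rho Q p ≤ p := by
  classical
  unfold rho
  calc _ ≤ (range p).card := card_le_card (filter_subset _ _)
    _ = p := card_range p

/-- counting in the intersection of the classes -/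
lemma cnt (Q : ℕ → ℕ → Prop) (hQ : Per Q) (N : ℕ) (S : Finset ℕ) (hS : ∀ p ∈ S, p.Prime)
    [DecidablePred fun n => ∀ p ∈ S, Q p n] :
    |(((Icc 1 N).filter (fun n => ∀ p ∈ S, Q p n)).card : ℝ) - N * ∏ p ∈ S, ((rho Q p : ℝ) / p)| ≤
      ∏ p ∈ S, (rho Q p : ℝ) := by
  classical
  have h := count_sys Q N S hS 1 le_rfl (fun p hp hd => (hS p hp).one_lt.ne' (Nat.dvd_one.1 hd)) 0
  have e1 : ((Icc 1 N).filter (fun n => n ≡ 0 [MOD 1] ∧ ∀ p ∈ S, Q p (n % p))) =
      (Icc 1 N).filter (fun n => ∀ p ∈ S, Q p n) := by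
    apply filter_congr
    intro n _
    constructor
    · rintro ⟨_, h2⟩ p hp
      exact (hQ p n).1 (h2 p hp)
    · intro h2
      exact ⟨Nat.modEq_one, fun p hp => (hQ p n).2 (h2 p hp)⟩
  rw [e1] at h
  have e2 : ∀ p, ((range p).filter (fun a => Q p a)).card = rho Q p := by
    intro p
    unfold rho
    congr 1
    
  simp only [e2, Nat.cast_one, div_one] at h
  convert h using 4

/-- the pure sieve with `r` terms -/
lemma pure (Q : ℕ → ℕ → Prop) (hQ : Per Q) (y N r : ℕ) :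
    |(sft Q y N : ℝ) - N * VV Q y| ≤
      ((max y 1 : ℕ) : ℝ) ^ r * (((max y 1 : ℕ) : ℝ) + 1) ^ r +
        2 * N * Real.exp (3 * ∑ p ∈ ps y, (rho Q p : ℝ) / p - r) := by
  classical
  set Y := max y 1 with hY
  have hY1 : (1 : ℝ) ≤ Y := by exact_mod_cast (le_max_right y 1)
  have hps : ∀ p ∈ ps y, p.Prime := fun p hp => (mem_filter.1 hp).2
  have hpy : ∀ p ∈ ps y, p ≤ y := fun p hp => (mem_Icc.1 (mem_filter.1 hp).1).2
  have hg : ∀ p ∈ ps y, 0 ≤ (rho Q p : ℝ) / p ∧ (rho Q p : ℝ) / p ≤ 1 := by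
    intro p hp
    refine ⟨by positivity, ?_⟩
    apply div_le_one_of_le₀ _ (Nat.cast_nonneg _)
    exact_mod_cast rho_le Q p
  have h := sieve_gen' (Icc 1 N) (fun _ => (1 : ℝ)) (fun _ _ => zero_le_one) (fun p n => Q p n) (ps y)
    (fun p => (rho Q p : ℝ) / p) hg (N : ℝ) (Nat.cast_nonneg _) (fun S => ∏ p ∈ S, (rho Q p : ℝ)) r
    (fun S hS _ => by
      have h1 := cnt Q hQ N S (fun p hp => hps p (hS hp))
      rw [sum_const, nsmul_eq_mul, mul_one]
      exact h1)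
  rw [sum_const, nsmul_eq_mul, mul_one] at h
  have e1 : ((Icc 1 N).filter (fun n => ∀ p ∈ ps y, ¬ Q p n)).card = sft Q y N := by
    unfold sft
    congr 1
    
  rw [e1] at h
  have e2 := es_le (x := fun p => (rho Q p : ℝ) / p) (T := ps y) (fun p hp => (hg p hp).1) r
  have h3 : ∑ j ∈ range (r + 1), ∑ S ∈ (ps y).powersetCard j, ∏ p ∈ S, (rho Q p : ℝ) ≤
      (Y : ℝ) ^ r * ((Y : ℝ) + 1) ^ r := by
    have a1 : ∀ j ∈ range (r + 1), ∑ S ∈ (ps y).powersetCard j, ∏ p ∈ S, (rho Q p : ℝ) ≤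
        (Y : ℝ) ^ r * ((ps y).powersetCard j).card := by
      intro j hj
      rw [mem_range] at hj
      have a2 : ∀ S ∈ (ps y).powersetCard j, ∏ p ∈ S, (rho Q p : ℝ) ≤ (Y : ℝ) ^ r := by
        intro S hS
        rw [mem_powersetCard] at hS
        calc ∏ p ∈ S, (rho Q p : ℝ) ≤ ∏ p ∈ S, (Y : ℝ) := by
              apply prod_le_prod (fun _ _ => Nat.cast_nonneg _)
              intro p hp
              have a3 : rho Q p ≤ Y := (rho_le Q p).trans ((hpy p (hS.1 hp)).trans (le_max_left _ _))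
              exact_mod_cast a3
          _ = (Y : ℝ) ^ j := by rw [prod_const, hS.2]
          _ ≤ (Y : ℝ) ^ r := pow_le_pow_right₀ hY1 (by omega)
      calc _ ≤ ∑ S ∈ (ps y).powersetCard j, (Y : ℝ) ^ r := sum_le_sum a2
        _ = _ := by rw [sum_const, nsmul_eq_mul]; ring
    refine (sum_le_sum a1).trans ?_
    rw [← mul_sum]
    apply mul_le_mul_of_nonneg_left _ (by positivity)
    have a4 := card_small (ps y) r
    push_cast at a4
    refine a4.trans ?_
    have a5 : ((ps y).card : ℝ) ≤ Y := by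
      have : (ps y).card ≤ y := by
        calc (ps y).card ≤ (Icc 1 y).card := card_le_card (filter_subset _ _)
          _ = y := by simp
      exact_mod_cast this.trans (le_max_left _ _)
    gcongr
  have h4 : VV Q y = ∏ p ∈ ps y, (1 - (rho Q p : ℝ) / p) := rfl
  rw [h4]
  refine h.trans ?_
  have h5 : 2 * (N : ℝ) * es (fun p => (rho Q p : ℝ) / p) (ps y) r ≤
      2 * N * Real.exp (3 * ∑ p ∈ ps y, (rho Q p : ℝ) / p - r) :=
    mul_le_mul_of_nonneg_left e2 (by positivity)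
  linarith

set_option maxHeartbeats 2000000 in
theorem brun : BrunStm := by
  intro m U hm
  obtain ⟨C₀, hC₀⟩ := Pool.Agent.Helper256.KM.mertens_inv
  have hC00 : 0 ≤ C₀ := (abs_nonneg _).trans (hC₀ 3 le_rfl)
  have hm0 : (1 : ℝ) ≤ m := by exact_mod_cast hm
  have hlimL : Filter.Tendsto (fun N : ℕ => Real.log (N : ℝ)) Filter.atTop Filter.atTop :=
    Real.tendsto_log_atTop.comp (tendsto_natCast_atTop_atTop (R := ℝ))
  have hlim : Filter.Tendsto (fun N : ℕ => Real.log (Real.log (N : ℝ))) Filter.atTop Filter.atTop :=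
    Real.tendsto_log_atTop.comp hlimL
  obtain ⟨N1, hN1⟩ := Filter.eventually_atTop.1 (hlim.eventually_ge_atTop (1 + C₀))
  obtain ⟨N2, hN2⟩ := Filter.eventually_atTop.1 (hlimL.eventually_ge_atTop 8)
  -- constants
  set C : ℝ := 6 * m + U + 2 with hCd
  have hC : 0 < C := by positivity
  have hU0 : (0 : ℝ) ≤ U := Nat.cast_nonneg _
  refine ⟨1 / (16 * (C + 2)), by positivity, max (max N1 N2) 3, ?_⟩
  intro N hN κ ℓ k hκ0 hκ hk hkl hℓ y hy Q hQ hρ
  have hloglog := hN1 N (le_trans (le_max_left _ _) (le_trans (le_max_left _ _) hN))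
  have hL8 := hN2 N (le_trans (le_max_right _ _) (le_trans (le_max_left _ _) hN))
  have hN3 : 3 ≤ N := le_trans (le_max_right _ _) hN
  have hM := (abs_le.1 (hC₀ N hN3)).2
  have hNpos : (0 : ℝ) < N := by exact_mod_cast (by omega : 0 < N)
  set L := Real.log N with hL
  have hk1 : (1 : ℝ) ≤ k := by exact_mod_cast hk
  have hℓ1 : 1 ≤ ℓ := by nlinarith
  have hℓ0 : 0 < ℓ := by linarith
  -- the truncation parameter
  set r : ℕ := ⌈C * ℓ⌉₊ with hr
  have hr1 : C * ℓ ≤ r := Nat.le_ceil _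
  have hr2 : (r : ℝ) ≤ (C + 1) * ℓ := by
    have := (Nat.ceil_lt_add_one (show 0 ≤ C * ℓ by positivity)).le
    rw [← hr] at this
    linarith
  have hmain := pure Q hQ y N r
  refine hmain.trans ?_
  set Y := max y 1 with hY
  have hY1 : (1 : ℝ) ≤ Y := by exact_mod_cast (le_max_right y 1)
  have hYexp : (Y : ℝ) ≤ Real.exp (κ * L / ℓ) := by
    have h1 : (1 : ℝ) ≤ Real.exp (κ * L / ℓ) := by
      rw [← Real.exp_zero]
      exact Real.exp_le_exp.2 (by positivity)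
    rw [hY, Nat.cast_max]
    exact max_le hy (by simpa using h1)
  have hκC : κ * (16 * (C + 2)) ≤ 1 := by
    rw [le_div_iff₀ (by positivity)] at hκ
    exact hκ
  have hκ1 : κ ≤ 1 := by nlinarith
  -- y ≤ N
  have hyN : y ≤ N := by
    have h1 : (y : ℝ) ≤ N := by
      refine hy.trans ?_
      rw [← Real.exp_log hNpos, ← hL]
      apply Real.exp_le_exp.2
      rw [div_le_iff₀ hℓ0]
      nlinarith
    exact_mod_cast h1
  -- the sum over primes
  have hS : ∑ p ∈ ps y, (rho Q p : ℝ) / p ≤ 2 * m * ℓ := by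
    have h1 : ∀ p ∈ ps y, (rho Q p : ℝ) / p ≤ (m * k) * (1 / p) := by
      intro p hp
      have hp' : p.Prime := (mem_filter.1 hp).2
      have h2 : (rho Q p : ℝ) ≤ m * k := by exact_mod_cast hρ p hp'
      rw [mul_one_div]
      exact div_le_div_of_nonneg_right h2 (Nat.cast_nonneg _)
    refine (sum_le_sum h1).trans ?_
    rw [← mul_sum]
    have h3 : ∑ p ∈ ps y, (1 : ℝ) / p ≤ ∑ p ∈ (Finset.Icc 1 N).filter Nat.Prime, (1 : ℝ) / p := by
      apply sum_le_sum_of_subset_of_nonneg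
      · intro p hp
        unfold ps at hp
        rw [mem_filter, mem_Icc] at hp ⊢
        exact ⟨⟨hp.1.1, hp.1.2.trans hyN⟩, hp.2⟩
      · intro p _ _
        positivity
    have h4 : ∑ p ∈ ps y, (1 : ℝ) / p ≤ 2 * Real.log L := by linarith
    have h5 : (m : ℝ) * k * ∑ p ∈ ps y, (1 : ℝ) / p ≤ m * k * (2 * Real.log L) :=
      mul_le_mul_of_nonneg_left h4 (by positivity)
    have h6 : (m : ℝ) * (k * Real.log L) ≤ m * ℓ := mul_le_mul_of_nonneg_left hkl (by positivity)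
    linarith
  -- first term
  have hA : (Y : ℝ) ^ r * ((Y : ℝ) + 1) ^ r ≤ N * Real.exp (-(U * ℓ)) / 2 := by
    have h1 : (Y : ℝ) + 1 ≤ Real.exp (κ * L / ℓ + 1) := by
      rw [Real.exp_add]
      have := Real.exp_one_gt_d9
      have h2 : 0 < Real.exp (κ * L / ℓ) := Real.exp_pos _
      nlinarith
    have h2 : (Y : ℝ) ^ r * ((Y : ℝ) + 1) ^ r ≤ Real.exp (r * (2 * (κ * L / ℓ) + 1)) := by
      rw [← mul_pow]
      have h3 : (Y : ℝ) * ((Y : ℝ) + 1) ≤ Real.exp (2 * (κ * L / ℓ) + 1) := by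
        calc (Y : ℝ) * ((Y : ℝ) + 1) ≤ Real.exp (κ * L / ℓ) * Real.exp (κ * L / ℓ + 1) := by gcongr
          _ = _ := by rw [← Real.exp_add]; congr 1; ring
      calc _ ≤ Real.exp (2 * (κ * L / ℓ) + 1) ^ r := pow_le_pow_left₀ (by positivity) h3 r
        _ = _ := by rw [← Real.exp_nat_mul]
    refine h2.trans ?_
    have h4 : (r : ℝ) * (2 * (κ * L / ℓ) + 1) ≤ (C + 1) * ℓ * (2 * (κ * L / ℓ) + 1) :=
      mul_le_mul_of_nonneg_right hr2 (by positivity)
    have h5 : (C + 1) * ℓ * (2 * (κ * L / ℓ) + 1) = (C + 1) * (2 * (κ * L) + ℓ) := by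
      field_simp
    have hℓC : ℓ * (16 * (C + 2)) ≤ L := by
      rw [div_mul_eq_mul_div, one_mul, le_div_iff₀ (by positivity)] at hℓ
      exact hℓ
    have h6 : (C + 1) * (2 * (κ * L) + ℓ) ≤ L / 4 := by
      have b1 : κ * (16 * (C + 2)) * L ≤ 1 * L := mul_le_mul_of_nonneg_right hκC (by linarith)
      have b0 : 0 ≤ κ * L := mul_nonneg hκ0.le (by linarith)
      have e1 : κ * (16 * (C + 2)) * L = 16 * (κ * L * C) + 32 * (κ * L) := by ring
      have e2 : ℓ * (16 * (C + 2)) = 16 * (ℓ * C) + 32 * ℓ := by ring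
      have e3 : (C + 1) * (2 * (κ * L) + ℓ) = 2 * (κ * L * C) + 2 * (κ * L) + ℓ * C + ℓ := by ring
      rw [e1] at b1
      rw [e2] at hℓC
      rw [e3]
      linarith
    have h7 : (U : ℝ) * ℓ ≤ L / 4 := by
      have c1 : (U : ℝ) ≤ C := by rw [hCd]; linarith
      have c2 : (U : ℝ) * ℓ ≤ C * ℓ := mul_le_mul_of_nonneg_right c1 hℓ0.le
      have e2 : ℓ * (16 * (C + 2)) = 16 * (C * ℓ) + 32 * ℓ := by ring
      rw [e2] at hℓC
      linarith
    have h8 : (N : ℝ) * Real.exp (-(U * ℓ)) = Real.exp (L - U * ℓ) := by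
      rw [sub_eq_add_neg, Real.exp_add, hL, Real.exp_log hNpos]
    rw [h8, le_div_iff₀ (by norm_num)]
    have h9 : (2 : ℝ) ≤ Real.exp 1 := by linarith [Real.exp_one_gt_d9]
    calc Real.exp (r * (2 * (κ * L / ℓ) + 1)) * 2 ≤ Real.exp (L / 4) * Real.exp 1 := by
          apply mul_le_mul (Real.exp_le_exp.2 (by linarith)) h9 (by norm_num) (Real.exp_pos _).le
      _ = Real.exp (L / 4 + 1) := (Real.exp_add _ _).symm
      _ ≤ Real.exp (L - U * ℓ) := Real.exp_le_exp.2 (by linarith)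
  -- second term
  have hB : 2 * (N : ℝ) * Real.exp (3 * ∑ p ∈ ps y, (rho Q p : ℝ) / p - r) ≤ N * Real.exp (-(U * ℓ)) / 2 := by
    have h1 : 3 * ∑ p ∈ ps y, (rho Q p : ℝ) / p - r ≤ -(U * ℓ) - 2 := by
      have e0 : C * ℓ = 3 * (2 * m * ℓ) + U * ℓ + 2 * ℓ := by rw [hCd]; ring
      linarith
    have h2 : Real.exp (3 * ∑ p ∈ ps y, (rho Q p : ℝ) / p - r) ≤ Real.exp (-(U * ℓ)) * Real.exp (-2) := by
      rw [← Real.exp_add]
      exact Real.exp_le_exp.2 (by linarith)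
    have h3 : Real.exp (-2) ≤ 1 / 4 := by
      rw [Real.exp_neg, inv_eq_one_div]
      apply one_div_le_one_div_of_le (by norm_num)
      have : Real.exp 2 = Real.exp 1 * Real.exp 1 := by rw [← Real.exp_add]; norm_num
      rw [this]
      nlinarith [Real.exp_one_gt_d9]
    have h4 : 0 < Real.exp (-(U * ℓ)) := Real.exp_pos _
    have h5 : Real.exp (-(U * ℓ)) * Real.exp (-2) ≤ Real.exp (-(U * ℓ)) * (1 / 4) :=
      mul_le_mul_of_nonneg_left h3 h4.le
    have h6 : 2 * (N : ℝ) * Real.exp (3 * ∑ p ∈ ps y, (rho Q p : ℝ) / p - r) ≤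
        2 * N * (Real.exp (-(U * ℓ)) * (1 / 4)) := mul_le_mul_of_nonneg_left (h2.trans h5) (by positivity)
    linarith
  linarith

end Pool.Agent.Y388.GL
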