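import Mathlib
import Pool.Agent.Y822.G.Stm
import Pool.Agent.Helper256.KM.Mertens

/-! GL-PLOW: a lower bound for products of local densities. -/

set_option autoImplicit false

namespace Pool.Agent.Y388.GL

open Finset Pool.Agent.Y822.G

lemma fac_low (K p ν : ℕ) (hp : p.Prime) (h1 : ν ≤ K) (h2 : ν < p) :
    Real.exp (-((if p ≤ 2 * K then Real.log p else 0) + 2 * K / p)) ≤ 1 - (ν : ℝ) / p := by
  have hp0 : (0 : ℝ) < p := by exact_mod_cast hp.pos
  have hK0 : (0 : ℝ) ≤ 2 * K / p := by positivity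
  split_ifs with h
  · have h3 : Real.exp (-(Real.log p + 2 * K / p)) ≤ Real.exp (-Real.log p) := Real.exp_le_exp.2 (by linarith)
    refine h3.trans ?_
    rw [Real.exp_neg, Real.exp_log hp0]
    have h4 : (ν : ℝ) + 1 ≤ p := by exact_mod_cast h2
    rw [inv_eq_one_div, div_le_iff₀ hp0, sub_mul, div_mul_cancel₀ _ hp0.ne']
    linarith
  · push Not at h
    have h5 : (2 * K : ℝ) < p := by exact_mod_cast h
    have h6 : (ν : ℝ) / p ≤ K / p := by
      apply div_le_div_of_nonneg_right _ hp0.le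
      exact_mod_cast h1
    set x : ℝ := K / p with hx
    have hx0 : 0 ≤ x := by positivity
    have hx1 : 2 * x ≤ 1 := by
      rw [hx, ← mul_div_assoc, div_le_one hp0]; exact h5.le
    have h7 : (2 * K / p : ℝ) = 2 * x := by rw [hx]; ring
    rw [zero_add, h7]
    -- exp(-2x) ≤ 1 - x
    have h8 : Real.exp (-(2 * x)) ≤ 1 - x := by
      rw [Real.exp_neg, inv_eq_one_div, div_le_iff₀ (Real.exp_pos _)]
      have h9 : 1 + 2 * x ≤ Real.exp (2 * x) := by linarith [Real.add_one_le_exp (2 * x)]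
      have h10 : 0 ≤ 1 - x := by linarith
      nlinarith [mul_le_mul_of_nonneg_left h9 h10]
    linarith

theorem plow : PlowStm := by
  intro m hm
  obtain ⟨C₀, hC₀⟩ := Pool.Agent.Helper256.KM.mertens_inv
  have hC00 : 0 ≤ C₀ := (abs_nonneg _).trans (hC₀ 3 le_rfl)
  have hlim : Filter.Tendsto (fun N : ℕ => Real.log (Real.log (N : ℝ))) Filter.atTop Filter.atTop :=
    Real.tendsto_log_atTop.comp (Real.tendsto_log_atTop.comp (tendsto_natCast_atTop_atTop (R := ℝ)))
  obtain ⟨N0, hN0⟩ := Filter.eventually_atTop.1 (hlim.eventually_ge_atTop 1)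
  have hm0 : (1 : ℝ) ≤ m := by exact_mod_cast hm
  refine ⟨2 * m * (Real.log 4 + 1 + C₀), ?_, max N0 3, ?_⟩
  · have : 0 < Real.log 4 := Real.log_pos (by norm_num)
    positivity
  intro N hN ℓ k hk hkl z hz ν hν1 hν2
  have hl1 : 1 ≤ Real.log (Real.log N) := hN0 N (le_trans (le_max_left _ _) hN)
  have hN3 : 3 ≤ N := le_trans (le_max_right _ _) hN
  have hM := (abs_le.1 (hC₀ N hN3)).2
  set K := m * k with hK
  -- product bound
  have h1 : Real.exp (-∑ p ∈ ps z, ((if p ≤ 2 * K then Real.log p else 0) + 2 * K / p)) ≤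
      ∏ p ∈ ps z, (1 - (ν p : ℝ) / p) := by
    rw [← sum_neg_distrib, Real.exp_sum]
    apply prod_le_prod (fun _ _ => (Real.exp_pos _).le)
    intro p hp
    have hpp : p.Prime := (mem_filter.1 hp).2
    exact fac_low K p (ν p) hpp (hν1 p hpp) (hν2 p hpp)
  refine le_trans (Real.exp_le_exp.2 ?_) h1
  rw [neg_le_neg_iff, sum_add_distrib]
  -- first sum
  have h2 : ∑ p ∈ ps z, (if p ≤ 2 * K then Real.log p else 0) ≤ (2 * K : ℕ) * Real.log 4 := by
    have h3 : ∑ p ∈ ps z, (if p ≤ 2 * K then Real.log (p : ℝ) else 0) ≤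
        ∑ p ∈ (range (2 * K + 1)).filter Nat.Prime, Real.log (p : ℝ) := by
      rw [← sum_filter]
      apply sum_le_sum_of_subset_of_nonneg
      · intro p hp
        rw [mem_filter] at hp
        rw [mem_filter, mem_range]
        exact ⟨by omega, (mem_filter.1 hp.1).2⟩
      · intro p _ _
        exact Real.log_natCast_nonneg p
    have h4 : ∑ p ∈ (range (2 * K + 1)).filter Nat.Prime, Real.log (p : ℝ) = Real.log (primorial (2 * K) : ℕ) := by
      unfold primorial
      rw [Nat.cast_prod, Real.log_prod]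
      intro p hp
      have := (mem_filter.1 hp).2.pos
      exact_mod_cast this.ne'
    have h5 : Real.log (primorial (2 * K) : ℕ) ≤ Real.log ((4 : ℝ) ^ (2 * K)) := by
      apply Real.log_le_log
      · exact_mod_cast primorial_pos _
      · exact_mod_cast primorial_le_four_pow (2 * K)
    rw [Real.log_pow] at h5
    linarith
  -- second sum
  have h6 : ∑ p ∈ ps z, (2 * K / p : ℝ) ≤ 2 * K * (Real.log (Real.log N) + C₀) := by
    have h7 : ∑ p ∈ ps z, (2 * K / p : ℝ) = 2 * K * ∑ p ∈ ps z, (1 : ℝ) / p := by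
      rw [mul_sum]
      apply sum_congr rfl
      intro p _
      ring
    rw [h7]
    apply mul_le_mul_of_nonneg_left _ (by positivity)
    have h8 : ∑ p ∈ ps z, (1 : ℝ) / p ≤ ∑ p ∈ (Finset.Icc 1 N).filter Nat.Prime, (1 : ℝ) / p := by
      apply sum_le_sum_of_subset_of_nonneg
      · intro p hp
        unfold ps at hp
        rw [mem_filter, mem_Icc] at hp ⊢
        exact ⟨⟨hp.1.1, hp.1.2.trans hz⟩, hp.2⟩
      · intro p _ _
        positivity
    linarith
  have hKm : ((K : ℕ) : ℝ) = m * k := by rw [hK]; push_cast; ring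
  have hk1 : (1 : ℝ) ≤ k := by exact_mod_cast hk
  have hlog4 : 0 < Real.log 4 := Real.log_pos (by norm_num)
  push_cast at h2
  rw [hKm] at h2 h6 ⊢
  have hkl2 : (k : ℝ) ≤ ℓ := by nlinarith
  have hℓ0 : 0 ≤ ℓ := by linarith
  have e1 : 2 * ((m : ℝ) * k) * Real.log 4 ≤ 2 * m * Real.log 4 * ℓ := by
    have : 0 ≤ 2 * (m : ℝ) * Real.log 4 := by positivity
    nlinarith [mul_le_mul_of_nonneg_left hkl2 this]
  have e2 : 2 * ((m : ℝ) * k) * (Real.log (Real.log N) + C₀) ≤ 2 * m * (1 + C₀) * ℓ := by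
    have a1 : 2 * (m : ℝ) * (k * Real.log (Real.log N)) ≤ 2 * m * ℓ := by
      apply mul_le_mul_of_nonneg_left hkl (by positivity)
    have a2 : 2 * (m : ℝ) * C₀ * k ≤ 2 * m * C₀ * ℓ := mul_le_mul_of_nonneg_left hkl2 (by positivity)
    nlinarith
  calc _ ≤ 2 * ((m : ℝ) * k) * Real.log 4 + 2 * ((m : ℝ) * k) * (Real.log (Real.log N) + C₀) := add_le_add h2 h6
    _ ≤ _ := by nlinarith

end Pool.Agent.Y388.GL
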